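import Pool.Agent.U852.Mum.Tw

/-! # The twisted product is a Mumford group; consequences of being a generalized Heisenberg group -/

open Topology
open scoped commutatorElement

namespace Pool.Agent.U852.Mum

universe u v w

noncomputable section

namespace Tw

variable {X : Type} [CommGroup X] {β : X →* X →* Circle}

lemma comm_mem_center (g h : Tw β) : ⁅g, h⁆ ∈ Subgroup.center (Tw β) := by
  rw [Subgroup.mem_center_iff]
  intro x
  ext1
  · simp [comm_k, mul_comm]
  · simp [comm_k]

lemma mem_center_of {g : Tw β} (hg : g.k = 1) : g ∈ Subgroup.center (Tw β) := by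
  rw [Subgroup.mem_center_iff]
  intro x
  ext1
  · simp [hg, mul_comm]
  · simp [hg]

lemma k_eq_one (hinj : ∀ x, (∀ y, β x y = β y x) → x = 1) {g : Tw β} (hg : g ∈ Subgroup.center (Tw β)) :
    g.k = 1 := by
  rw [Subgroup.mem_center_iff] at hg
  apply hinj
  intro y
  have h := congrArg Tw.t (hg ⟨1, y⟩)
  simp only [mul_t, one_mul, mul_one] at h
  exact (mul_left_cancel h).symm

variable [TopologicalSpace X]

/-- the centre is the circle -/
def centerEquiv (hinj : ∀ x, (∀ y, β x y = β y x) → x = 1) : Subgroup.center (Tw β) ≃ₜ* Circle where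
  toFun g := g.1.t
  invFun t := ⟨⟨t, 1⟩, mem_center_of rfl⟩
  left_inv g := by
    apply Subtype.ext
    ext1
    · rfl
    · exact (k_eq_one hinj g.2).symm
  right_inv t := rfl
  map_mul' g h := by
    have := k_eq_one hinj g.2
    simp [this]
  continuous_toFun := continuous_t.comp continuous_subtype_val
  continuous_invFun := (continuous_mk continuous_id continuous_const).subtype_mk _

/-- the projection to `X` -/
def proj : Tw β →* X where
  toFun g := g.k
  map_one' := rfl
  map_mul' _ _ := rfl

/-- the quotient modulo the centre is `X` -/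
def quotEquiv (hinj : ∀ x, (∀ y, β x y = β y x) → x = 1) : (Tw β ⧸ Subgroup.center (Tw β)) ≃ₜ* X where
  toFun := QuotientGroup.lift (Subgroup.center (Tw β)) proj (fun _ hg => k_eq_one hinj hg)
  invFun x := ((⟨1, x⟩ : Tw β) : Tw β ⧸ Subgroup.center (Tw β))
  left_inv g := by
    induction g using QuotientGroup.induction_on with
    | H g =>
      change ((⟨1, g.k⟩ : Tw β) : Tw β ⧸ Subgroup.center (Tw β)) = (g : Tw β ⧸ Subgroup.center (Tw β))
      rw [QuotientGroup.eq]
      apply mem_center_of
      simp
  right_inv x := rfl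
  map_mul' g h := by rw [map_mul]
  continuous_toFun := by
    apply continuous_quot_lift
    exact continuous_k
  continuous_invFun := QuotientGroup.continuous_mk.comp (continuous_mk continuous_const continuous_id)

lemma quotEquiv_mk (hinj : ∀ x, (∀ y, β x y = β y x) → x = 1) (g : Tw β) :
    quotEquiv hinj (g : Tw β ⧸ Subgroup.center (Tw β)) = g.k := rfl

end Tw

/-- Transport of a self-duality along an isomorphism of topological groups. -/
def transport {Q X : Type} [CommGroup X] [Group Q] [TopologicalSpace Q] [TopologicalSpace X]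
    (q : Q ≃ₜ* X) (M : X ≃ₜ* PontryaginDual X) : Q ≃ₜ* PontryaginDual Q where
  toFun x := PontryaginDual.map (q : Q →ₜ* X) (M (q x))
  invFun χ := q.symm (M.symm (PontryaginDual.map (q.symm : X →ₜ* Q) χ))
  left_inv x := by
    have : PontryaginDual.map (q.symm : X →ₜ* Q) (PontryaginDual.map (q : Q →ₜ* X) (M (q x))) = M (q x) := by
      ext y
      simp
    simp [this]
  right_inv χ := by
    ext y
    simp
  map_mul' x y := by simp
  continuous_toFun := (PontryaginDual.map (q : Q →ₜ* X)).continuous_toFun.comp
    (M.continuous_toFun.comp q.continuous_toFun)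
  continuous_invFun := q.symm.continuous_toFun.comp (M.symm.continuous_toFun.comp
    (PontryaginDual.map (q.symm : X →ₜ* Q)).continuous_toFun)

lemma transport_apply {Q X : Type} [CommGroup X] [Group Q] [TopologicalSpace Q] [TopologicalSpace X]
    (q : Q ≃ₜ* X) (M : X ≃ₜ* PontryaginDual X) (x y : Q) : transport q M x y = M (q x) (q y) := rfl

theorem mumford_tw {X : Type} [CommGroup X] [TopologicalSpace X] [IsTopologicalGroup X] [T2Space X]
    [LocallyCompactSpace X] (β : X →* X →* Circle) (hβ : Continuous fun p : X × X => β p.1 p.2)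
    (M : X ≃ₜ* PontryaginDual X) (hM : ∀ x y, M x y = β x y / β y x) : IsMumford (Tw β) := by
  have hinj : ∀ x, (∀ y, β x y = β y x) → x = 1 := by
    intro x hx
    have : M x = M 1 := by
      ext y
      rw [hM, hM, hx y]
      simp
    exact M.injective this
  refine ⟨Tw.isTopologicalGroup hβ, Tw.homeo.symm.t2Space, Tw.homeo.isClosedEmbedding.locallyCompactSpace,
    Tw.comm_mem_center, Tw.centerEquiv hinj, transport (Tw.quotEquiv hinj) M, ?_⟩
  intro x y
  rw [transport_apply, Tw.quotEquiv_mk, Tw.quotEquiv_mk, hM]
  exact (Tw.comm_t x y).symm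

end

end Pool.Agent.U852.Mum
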