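import Mathlib

/-! # Mumford groups and generalized Heisenberg groups: definitions -/

open Topology
open scoped commutatorElement

namespace Pool.Agent.U852.Mum

noncomputable section

universe u v w

/-- The generalized Heisenberg group `H(ω)` of a bilinear map `ω : E × F → A` of commutative groups, written
multiplicatively: the set `A × E × F` with the product `(a, b, c) (a', b', c') = (a a' ω(b, c'), b b', c c')`. -/
@[ext] structure Heis {E : Type u} {F : Type v} {A : Type w} [CommGroup E] [CommGroup F] [CommGroup A]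
    (ω : E →* F →* A) where
  a : A
  b : E
  c : F

namespace Heis

variable {E : Type u} {F : Type v} {A : Type w} [CommGroup E] [CommGroup F] [CommGroup A] (ω : E →* F →* A)

instance : Mul (Heis ω) := ⟨fun g h => ⟨g.a * h.a * ω g.b h.c, g.b * h.b, g.c * h.c⟩⟩
instance : One (Heis ω) := ⟨⟨1, 1, 1⟩⟩
instance : Inv (Heis ω) := ⟨fun g => ⟨g.a⁻¹ * ω g.b g.c, g.b⁻¹, g.c⁻¹⟩⟩

variable {ω}

@[simp] lemma mul_a (g h : Heis ω) : (g * h).a = g.a * h.a * ω g.b h.c := rfl
@[simp] lemma mul_b (g h : Heis ω) : (g * h).b = g.b * h.b := rfl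
@[simp] lemma mul_c (g h : Heis ω) : (g * h).c = g.c * h.c := rfl
@[simp] lemma one_a : (1 : Heis ω).a = 1 := rfl
@[simp] lemma one_b : (1 : Heis ω).b = 1 := rfl
@[simp] lemma one_c : (1 : Heis ω).c = 1 := rfl
@[simp] lemma inv_a (g : Heis ω) : (g⁻¹).a = g.a⁻¹ * ω g.b g.c := rfl
@[simp] lemma inv_b (g : Heis ω) : (g⁻¹).b = g.b⁻¹ := rfl
@[simp] lemma inv_c (g : Heis ω) : (g⁻¹).c = g.c⁻¹ := rfl

instance : Group (Heis ω) :=
  Group.ofLeftAxioms
    (by
      intro x y z
      ext
      · simp only [mul_a, mul_b, mul_c, map_mul, MonoidHom.mul_apply]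
        generalize (ω x.b) z.c = p
        generalize (ω y.b) z.c = q
        generalize (ω x.b) y.c = r
        simp only [mul_comm, mul_left_comm]
      · simp [mul_assoc]
      · simp [mul_assoc])
    (by intro x; ext <;> simp)
    (by intro x; ext <;> simp)

/-- `H(ω)` carries the product topology of `A × E × F`. -/
instance [TopologicalSpace E] [TopologicalSpace F] [TopologicalSpace A] : TopologicalSpace (Heis ω) :=
  TopologicalSpace.induced (fun g => (g.a, g.b, g.c)) inferInstance

end Heis

/-- A topological group is a generalized Heisenberg group if it is isomorphic (as a topological group) to `H(ω)`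
for some continuous bilinear map `ω : E × F → A` of topological commutative groups. -/
def IsGenHeisenberg (G : Type) [Group G] [TopologicalSpace G] : Prop :=
  ∃ (E : Type u) (F : Type v) (A : Type w)
    (_ : CommGroup E) (_ : CommGroup F) (_ : CommGroup A)
    (_ : TopologicalSpace E) (_ : TopologicalSpace F) (_ : TopologicalSpace A)
    (_ : IsTopologicalGroup E) (_ : IsTopologicalGroup F) (_ : IsTopologicalGroup A)
    (ω : E →* F →* A),
    (Continuous fun p : E × F => ω p.1 p.2) ∧ Nonempty (G ≃ₜ* Heis ω)

/-- `G` is a (Hausdorff) locally compact group of nilpotency class at most two, whose centre is isomorphic to the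
circle group, and it is a Mumford group: the Mumford map `M`, given by `M (x Z(G)) (y Z(G)) = [x, y]`, is an
isomorphism of topological groups from `K = G / Z(G)` onto the Pontryagin dual of `K`. -/
def IsMumford (G : Type) [Group G] [TopologicalSpace G] : Prop :=
  IsTopologicalGroup G ∧ T2Space G ∧ LocallyCompactSpace G ∧
    ∃ (h : ∀ x y : G, ⁅x, y⁆ ∈ Subgroup.center G) (e : Subgroup.center G ≃ₜ* Circle)
      (M : (G ⧸ Subgroup.center G) ≃ₜ* PontryaginDual (G ⧸ Subgroup.center G)),
      ∀ x y : G, M (x : G ⧸ Subgroup.center G) (y : G ⧸ Subgroup.center G) = e ⟨⁅x, y⁆, h x y⟩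

end

end Pool.Agent.U852.Mum
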