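import Pool.Agent.U852.Mum.RP

/-! # Self-duality of restricted products of finite groups -/

open Topology Filter
open scoped RestrictedProduct

namespace Pool.Agent.U852.Mum

noncomputable section

variable {ι : Type} {K : ι → Type} [∀ i, CommGroup (K i)] {L : ∀ i, Subgroup (K i)}

/-- finite duality -/
lemma exists_of_char {H : Type} [CommGroup H] [Finite H] (n : H →* H →* Circle)
    (hn : ∀ x, (∀ y, n x y = 1) → x = 1) (χ : H →* Circle) : ∃ x, n x = χ := by
  have h1 : Nat.card (H →* Circleˣ) = Nat.card H := CommGroup.card_monoidHom_of_hasEnoughRootsOfUnity H Circle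
  have h2 : Nat.card (H →* Circle) = Nat.card H := by
    rw [← h1]
    exact Nat.card_congr (MulEquiv.monoidHomCongrRight (toUnits (G := Circle))).toEquiv
  have hinj : Function.Injective (n : H → (H →* Circle)) := by
    rw [injective_iff_map_eq_one]
    intro x hx
    exact hn x fun y => by rw [hx]; rfl
  have : Finite (H →* Circle) := Nat.finite_of_card_ne_zero (by rw [h2]; exact Nat.card_pos.ne')
  have hb := (Nat.bijective_iff_injective_and_card _).2 ⟨hinj, h2.symm⟩
  exact hb.2 χ

lemma pairing_single [DecidableEq ι] (n : ∀ i, K i →* K i →* Circle)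
    (hn : ∀ i, ∀ x ∈ L i, ∀ y ∈ L i, n i x y = 1) (x : Πʳ i, [K i, L i]) (i : ι) (k : K i) :
    pairing n hn x (RestrictedProduct.mulSingle L i k) = n i (x i) k := by
  rw [pairing_apply, finprod_eq_single _ i]
  · rw [RestrictedProduct.mulSingle_eq_same]
  · intro j hj
    rw [RestrictedProduct.mulSingle_eq_of_ne _ _ hj, map_one]

variable [∀ i, TopologicalSpace (K i)] [∀ i, DiscreteTopology (K i)]

/-- a continuous homomorphism which is trivial on all `K i` is trivial -/
lemma eq_one_of_single [DecidableEq ι] (θ : (Πʳ i, [K i, L i]) →* Circle) (hθ : Continuous θ)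
    (h : ∀ i (k : K i), θ (RestrictedProduct.mulSingle L i k) = 1) (y : Πʳ i, [K i, L i]) : θ y = 1 := by
  have h1 : ∀ T : Finset ι, ∀ y : Πʳ i, [K i, L i], (∀ i, i ∉ T → y i = 1) → θ y = 1 := by
    intro T
    induction T using Finset.induction_on with
    | empty =>
      intro y hy
      have : y = 1 := by
        ext i
        exact hy i (by simp)
      rw [this, map_one]
    | insert a T ha ih =>
      intro y hy
      have h2 : y = RestrictedProduct.mulSingle L a (y a) * ((RestrictedProduct.mulSingle L a (y a))⁻¹ * y) := by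
        rw [mul_inv_cancel_left]
      rw [h2, map_mul, h, one_mul]
      apply ih
      intro i hi
      by_cases hia : i = a
      · subst hia
        rw [RestrictedProduct.mul_apply, RestrictedProduct.inv_apply, RestrictedProduct.mulSingle_eq_same,
          inv_mul_cancel]
      · rw [RestrictedProduct.mul_apply, RestrictedProduct.inv_apply,
          RestrictedProduct.mulSingle_eq_of_ne _ _ hia, inv_one, one_mul]
        exact hy i (by simp [hia, hi])
  obtain ⟨S, hS⟩ := char_trivial θ hθ
  have hf : {i | ¬ (y i ∈ L i)}.Finite := y.eventually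
  set T : Finset ι := S ∪ hf.toFinset with hT
  have hT' : ∀ i, i ∉ T → y i ∈ L i := by
    intro i hi
    by_contra h
    exact hi (by simp [hT, h])
  let w : Πʳ i, [K i, L i] := ⟨fun i => if i ∈ T then y i else 1, by
    have : ∀ᶠ i in cofinite, i ∉ T := T.finite_toSet.eventually_cofinite_notMem
    filter_upwards [this] with i hi
    simp only [if_neg hi]
    exact one_mem (L i)⟩
  have hw : ∀ i, w i = if i ∈ T then y i else 1 := fun _ => rfl
  have h3 : y = w * (w⁻¹ * y) := by rw [mul_inv_cancel_left]
  rw [h3, map_mul, h1 T w (fun i hi => by rw [hw, if_neg hi]), one_mul]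
  apply hS
  · intro i hi
    rw [RestrictedProduct.mul_apply, RestrictedProduct.inv_apply, hw, if_pos (by simp [hT, hi]), inv_mul_cancel]
  · intro i
    rw [RestrictedProduct.mul_apply, RestrictedProduct.inv_apply, hw]
    by_cases hi : i ∈ T
    · rw [if_pos hi, inv_mul_cancel]; exact one_mem _
    · rw [if_neg hi, inv_one, one_mul]; exact hT' i hi

instance : Fact (∀ i, IsOpen (L i : Set (K i))) := ⟨fun _ => isOpen_discrete _⟩

/-- the homomorphism to the dual group -/
def toDual (n : ∀ i, K i →* K i →* Circle) (hn : ∀ i, ∀ x ∈ L i, ∀ y ∈ L i, n i x y = 1) :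
    (Πʳ i, [K i, L i]) →* PontryaginDual (Πʳ i, [K i, L i]) where
  toFun x := (⟨pairing n hn x, (continuous_pairing n hn).comp (Continuous.prodMk_right x)⟩ :
    (Πʳ i, [K i, L i]) →ₜ* Circle)
  map_one' := PontryaginDual.ext fun y => by
    change pairing n hn 1 y = 1
    rw [map_one]; rfl
  map_mul' x y := PontryaginDual.ext fun z => by
    change pairing n hn (x * y) z = pairing n hn x z * pairing n hn y z
    rw [map_mul]; rfl

lemma toDual_apply (n : ∀ i, K i →* K i →* Circle) (hn : ∀ i, ∀ x ∈ L i, ∀ y ∈ L i, n i x y = 1)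
    (x y : Πʳ i, [K i, L i]) : toDual n hn x y = pairing n hn x y := rfl

lemma continuous_toDual (n : ∀ i, K i →* K i →* Circle) (hn : ∀ i, ∀ x ∈ L i, ∀ y ∈ L i, n i x y = 1) :
    Continuous (toDual n hn) :=
  ContinuousMonoidHom.continuous_of_continuous_uncurry _ (continuous_pairing n hn)

lemma toDual_injective (n : ∀ i, K i →* K i →* Circle) (hn : ∀ i, ∀ x ∈ L i, ∀ y ∈ L i, n i x y = 1)
    (hnd : ∀ i x, (∀ y, n i x y = 1) → x = 1) : Function.Injective (toDual n hn) := by
  classical
  rw [injective_iff_map_eq_one]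
  intro x hx
  ext i
  apply hnd
  intro y
  rw [← pairing_single n hn x i y, ← toDual_apply, hx]
  rfl

lemma toDual_surjective [∀ i, Finite (K i)] (n : ∀ i, K i →* K i →* Circle)
    (hn : ∀ i, ∀ x ∈ L i, ∀ y ∈ L i, n i x y = 1)
    (hnd : ∀ i x, (∀ y, n i x y = 1) → x = 1) (hL : ∀ i x, (∀ y ∈ L i, n i x y = 1) → x ∈ L i) :
    Function.Surjective (toDual n hn) := by
  classical
  intro χ
  have hχ : Continuous (χ : (Πʳ i, [K i, L i]) → Circle) := map_continuous χ
  let χ' : (Πʳ i, [K i, L i]) →* Circle := MonoidHomClass.toMonoidHom χ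
  have hχ' : ∀ x, χ' x = χ x := fun _ => rfl
  let c : ∀ i, K i →* Circle := fun i =>
    { toFun := fun k => χ (RestrictedProduct.mulSingle L i k)
      map_one' := by rw [RestrictedProduct.mulSingle_one, map_one]
      map_mul' := fun a b => by rw [RestrictedProduct.mulSingle_mul, map_mul] }
  have hc : ∀ i k, c i k = χ (RestrictedProduct.mulSingle L i k) := fun _ _ => rfl
  choose a ha using fun i => exists_of_char (n i) (hnd i) (c i)
  obtain ⟨S, hS⟩ := char_trivial χ' hχ
  have hmem : ∀ i, i ∉ S → a i ∈ L i := by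
    intro i hi
    apply hL
    intro y hy
    rw [ha, hc, ← hχ']
    apply hS
    · intro j hj
      have : j ≠ i := by rintro rfl; exact hi hj
      exact RestrictedProduct.mulSingle_eq_of_ne _ _ this
    · intro j
      by_cases hji : j = i
      · subst hji
        rw [RestrictedProduct.mulSingle_eq_same]; exact hy
      · rw [RestrictedProduct.mulSingle_eq_of_ne _ _ hji]; exact one_mem _
  let x : Πʳ i, [K i, L i] := ⟨a, by
    have : ∀ᶠ i in cofinite, i ∉ S := S.finite_toSet.eventually_cofinite_notMem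
    filter_upwards [this] with i hi using hmem i hi⟩
  have hx : ∀ i, x i = a i := fun _ => rfl
  refine ⟨x, PontryaginDual.ext fun y => ?_⟩
  rw [toDual_apply]
  have h1 := eq_one_of_single (χ' / pairing n hn x)
    (hχ.div' ((continuous_pairing n hn).comp (Continuous.prodMk_right x))) (fun i k => by
      rw [MonoidHom.div_apply, pairing_single, hx, ha, hc, hχ', div_self']) y
  rw [MonoidHom.div_apply, div_eq_one] at h1
  rw [← h1, hχ']

lemma toDual_open [∀ i, Finite (K i)] (n : ∀ i, K i →* K i →* Circle)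
    (hn : ∀ i, ∀ x ∈ L i, ∀ y ∈ L i, n i x y = 1)
    (hnd : ∀ i x, (∀ y, n i x y = 1) → x = 1) (hL : ∀ i x, (∀ y ∈ L i, n i x y = 1) → x ∈ L i)
    {O : Set (Πʳ i, [K i, L i])} (hO : O ∈ 𝓝 1) :
    {ψ : PontryaginDual (Πʳ i, [K i, L i]) | ∀ x, toDual n hn x = ψ → x ∈ O} ∈ 𝓝 1 := by
  classical
  obtain ⟨S, hS⟩ := exists_finset_of_nhds hO
  let C : Set (Πʳ i, [K i, L i]) := {x | ∀ i, i ∉ S → x i ∈ L i}
  let V : Set (PontryaginDual (Πʳ i, [K i, L i])) := {ψ | Set.MapsTo ψ C (Circle.centeredArc (Real.pi / 2))}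
  have hVopen : IsOpen V := by
    dsimp only [V]
    exact isOpen_induced (ContinuousMap.isOpen_setOfPred_mapsTo (isCompact_C S)
      (Circle.isOpen_centeredArc (Real.pi / 2)))
  have h1V : (1 : PontryaginDual (Πʳ i, [K i, L i])) ∈ V := by
    intro x hx
    rw [PontryaginDual.one_apply, Circle.mem_centeredArc (by linarith [Real.pi_pos])]
    simp [Real.pi_pos]
  filter_upwards [hVopen.mem_nhds h1V] with ψ hψ x hx
  have h2 : ∀ y ∈ C, pairing n hn x y = 1 := by
    intro y hy
    refine Circle.eq_one_of_forall_pow_mem_centeredArc_pi_div_two fun m hm ↦ ?_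
    have : y ^ m ∈ C := by
      intro i hi
      rw [RestrictedProduct.pow_apply]
      exact pow_mem (hy i hi) m
    have h3 := hψ this
    rw [← hx, toDual_apply, map_pow] at h3
    exact h3
  apply hS
  · intro i hi
    apply hnd
    intro y
    rw [← pairing_single n hn x i y]
    apply h2
    intro j hj
    have : j ≠ i := by rintro rfl; exact hj hi
    rw [RestrictedProduct.mulSingle_eq_of_ne _ _ this]
    exact one_mem _
  · intro i
    apply hL
    intro y hy
    rw [← pairing_single n hn x i y]
    apply h2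
    intro j hj
    by_cases hji : j = i
    · subst hji
      rw [RestrictedProduct.mulSingle_eq_same]; exact hy
    · rw [RestrictedProduct.mulSingle_eq_of_ne _ _ hji]; exact one_mem _

/-- the self-duality of the restricted product -/
def selfDual [∀ i, Finite (K i)] (n : ∀ i, K i →* K i →* Circle)
    (hn : ∀ i, ∀ x ∈ L i, ∀ y ∈ L i, n i x y = 1)
    (hnd : ∀ i x, (∀ y, n i x y = 1) → x = 1) (hL : ∀ i x, (∀ y ∈ L i, n i x y = 1) → x ∈ L i) :
    (Πʳ i, [K i, L i]) ≃ₜ* PontryaginDual (Πʳ i, [K i, L i]) where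
  __ := MulEquiv.ofBijective (toDual n hn) ⟨toDual_injective n hn hnd, toDual_surjective n hn hnd hL⟩
  continuous_toFun := continuous_toDual n hn
  continuous_invFun := by
    let e := MulEquiv.ofBijective (toDual n hn) ⟨toDual_injective n hn hnd, toDual_surjective n hn hnd hL⟩
    change Continuous e.symm
    apply continuous_of_continuousAt_one e.symm
    intro O hO
    rw [map_one] at hO
    change e.symm ⁻¹' O ∈ 𝓝 1
    filter_upwards [toDual_open n hn hnd hL hO] with ψ hψ
    exact hψ _ (e.apply_symm_apply ψ)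

lemma selfDual_apply [∀ i, Finite (K i)] (n : ∀ i, K i →* K i →* Circle)
    (hn : ∀ i, ∀ x ∈ L i, ∀ y ∈ L i, n i x y = 1)
    (hnd : ∀ i x, (∀ y, n i x y = 1) → x = 1) (hL : ∀ i x, (∀ y ∈ L i, n i x y = 1) → x ∈ L i)
    (x y : Πʳ i, [K i, L i]) : selfDual n hn hnd hL x y = pairing n hn x y := rfl

end

end Pool.Agent.U852.Mum
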