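import Mathlib

/-! # Finite symplectic groups with an indecomposable Lagrangian subgroup -/

namespace Pool.Agent.U852.Mum

noncomputable section

/-- the alternating form on `ℤ ^ 6` -/
def bz (p : ℤ) (v w : Fin 6 → ℤ) : ℤ :=
  (v 0 * w 1 - v 1 * w 0) + p * (v 0 * w 2 - v 2 * w 0) + p ^ 2 * (v 1 * w 2 - v 2 * w 1)
    + p ^ 2 * (v 3 * w 0 - v 0 * w 3) + p ^ 4 * (v 4 * w 1 - v 1 * w 4) + p ^ 6 * (v 5 * w 2 - v 2 * w 5)

lemma bz_add_left (p : ℤ) (u v w : Fin 6 → ℤ) : bz p (u + v) w = bz p u w + bz p v w := by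
  simp only [bz, Pi.add_apply]; ring

lemma bz_add_right (p : ℤ) (u v w : Fin 6 → ℤ) : bz p u (v + w) = bz p u v + bz p u w := by
  simp only [bz, Pi.add_apply]; ring

lemma bz_symm (p : ℤ) (v w : Fin 6 → ℤ) : bz p v w = - bz p w v := by
  simp only [bz]; ring

lemma bz_smul_left (p c : ℤ) (v w : Fin 6 → ℤ) : bz p (c • v) w = c * bz p v w := by
  simp only [bz, Pi.smul_apply, smul_eq_mul]; ring

/-- the arithmetic at the heart of the construction -/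
lemma arith (p : ℤ) (hp : Prime p) (u1 u2 u3 : Fin 6 → ℤ) (h20 : p ^ 2 ∣ u2 0) (h30 : p ^ 4 ∣ u3 0)
    (h31 : p ^ 2 ∣ u3 1) (h12 : p ^ 8 ∣ bz p u1 u2) (h13 : p ^ 8 ∣ bz p u1 u3) (h23 : p ^ 8 ∣ bz p u2 u3) :
    p ∣ u1 0 * u2 1 ∧ p ∣ u1 0 * u3 2 ∧ p ∣ u2 1 * u3 2 := by
  obtain ⟨α, hα⟩ := h20
  obtain ⟨γ, hγ⟩ := h30
  obtain ⟨δ, hδ⟩ := h31
  obtain ⟨r, hr⟩ := h12
  obtain ⟨s, hs⟩ := h13
  obtain ⟨t, ht⟩ := h23
  have hp0 : p ≠ 0 := hp.ne_zero
  simp only [bz] at hr hs ht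
  rw [hα] at hr ht
  rw [hγ, hδ] at hs ht
  refine ⟨⟨p ^ 7 * r + p * (u1 1 * α) - (u1 0 * u2 2 - u1 2 * (p ^ 2 * α)) - p * (u1 1 * u2 2 - u1 2 * u2 1)
    - p * (u1 3 * (p ^ 2 * α) - u1 0 * u2 3) - p ^ 3 * (u1 4 * u2 1 - u1 1 * u2 4)
    - p ^ 5 * (u1 5 * u2 2 - u1 2 * u2 5), ?_⟩, ?_, ?_⟩
  · linear_combination hr
  · have h : p * (u1 0 * u3 2) = p * (p * (p ^ 6 * s - (u1 0 * δ - p ^ 2 * (u1 1 * γ)) + p ^ 3 * (u1 2 * γ)
        - (u1 1 * u3 2 - u1 2 * (p ^ 2 * δ)) - (u1 3 * (p ^ 4 * γ) - u1 0 * u3 3)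
        - p ^ 2 * (u1 4 * (p ^ 2 * δ) - u1 1 * u3 4) - p ^ 4 * (u1 5 * u3 2 - u1 2 * u3 5))) := by
      linear_combination hs
    exact ⟨_, mul_left_cancel₀ hp0 h⟩
  · have h : p ^ 2 * (u2 1 * u3 2) = p ^ 2 * (p * (p ^ 5 * t - p * (α * δ) + p * (u2 1 * γ)
        - (α * u3 2 - p ^ 2 * (u2 2 * γ)) + p * (u2 2 * δ)
        - p * (p ^ 2 * (u2 3 * γ) - α * u3 3) - p * (u2 4 * (p ^ 2 * δ) - u2 1 * u3 4)
        - p ^ 3 * (u2 5 * u3 2 - u2 2 * u3 5))) := by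
      linear_combination ht
    exact ⟨_, mul_left_cancel₀ (pow_ne_zero 2 hp0) h⟩

/-! ### Quotient by the radical -/

section Rad

variable {W : Type} [CommGroup W] (c : W →* W →* Circle) (hc : ∀ v w, c v w = (c w v)⁻¹)

/-- the pairing induced on the quotient by the radical -/
def radPairing : (W ⧸ c.ker) →* (W ⧸ c.ker) →* Circle :=
  QuotientGroup.lift c.ker (MonoidHom.mk' (fun v => QuotientGroup.lift c.ker (c v) (fun w hw => by
      rw [MonoidHom.mem_ker] at hw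
      rw [MonoidHom.mem_ker, hc, hw]; simp)) (fun v v' => by
      ext w
      simp)) (fun v hv => by
    rw [MonoidHom.mem_ker] at hv
    rw [MonoidHom.mem_ker]
    ext w
    simp [hv])

lemma radPairing_mk (v w : W) :
    radPairing c hc (v : W ⧸ c.ker) (w : W ⧸ c.ker) = c v w := rfl

lemma radPairing_nondeg (x : W ⧸ c.ker) (h : ∀ y, radPairing c hc x y = 1) : x = 1 := by
  induction x using QuotientGroup.induction_on with
  | H v =>
    rw [QuotientGroup.eq_one_iff, MonoidHom.mem_ker]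
    ext w
    rw [← radPairing_mk c hc, h]; rfl

lemma radPairing_symm (x y : W ⧸ c.ker) : radPairing c hc x y = (radPairing c hc y x)⁻¹ := by
  induction x using QuotientGroup.induction_on with
  | H v =>
    induction y using QuotientGroup.induction_on with
    | H w => rw [radPairing_mk, radPairing_mk, hc]

end Rad

/-! ### The finite group -/

variable (p : ℕ) [hp : Fact p.Prime]

instance : NeZero (p ^ 8) := ⟨pow_ne_zero 8 hp.out.ne_zero⟩

/-- the pairing on `ℤ ^ 6` with values in the circle -/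
def cz : Multiplicative (Fin 6 → ℤ) →* Multiplicative (Fin 6 → ℤ) →* Circle :=
  MonoidHom.mk' (fun v => MonoidHom.mk' (fun w => ZMod.toCircle ((bz p v.toAdd w.toAdd : ℤ) : ZMod (p ^ 8)))
    (fun w w' => by
      rw [toAdd_mul, bz_add_right, Int.cast_add, AddChar.map_add_eq_mul])) (fun v v' => by
    refine MonoidHom.ext fun w => ?_
    change ZMod.toCircle ((bz p (v * v').toAdd w.toAdd : ℤ) : ZMod (p ^ 8)) =
      ZMod.toCircle ((bz p v.toAdd w.toAdd : ℤ) : ZMod (p ^ 8)) *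
        ZMod.toCircle ((bz p v'.toAdd w.toAdd : ℤ) : ZMod (p ^ 8))
    rw [toAdd_mul, bz_add_left, Int.cast_add, AddChar.map_add_eq_mul])

lemma cz_apply (v w : Fin 6 → ℤ) : cz p (Multiplicative.ofAdd v) (Multiplicative.ofAdd w) =
    ZMod.toCircle ((bz p v w : ℤ) : ZMod (p ^ 8)) := rfl

lemma cz_eq_one_iff (v w : Fin 6 → ℤ) : cz p (Multiplicative.ofAdd v) (Multiplicative.ofAdd w) = 1 ↔
    (p : ℤ) ^ 8 ∣ bz p v w := by
  rw [cz_apply, ← AddChar.map_zero_eq_one (ZMod.toCircle (N := p ^ 8)), ZMod.injective_toCircle.eq_iff,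
    ZMod.intCast_zmod_eq_zero_iff_dvd]
  push_cast
  rfl

lemma cz_symm (v w : Multiplicative (Fin 6 → ℤ)) : cz p v w = (cz p w v)⁻¹ := by
  change ZMod.toCircle ((bz p v.toAdd w.toAdd : ℤ) : ZMod (p ^ 8)) =
    (ZMod.toCircle ((bz p w.toAdd v.toAdd : ℤ) : ZMod (p ^ 8)))⁻¹
  rw [bz_symm, Int.cast_neg, AddChar.map_neg_eq_inv]

/-- the finite group `K_p` -/
abbrev Kp : Type := Multiplicative (Fin 6 → ℤ) ⧸ (cz p).ker

/-- the pairing -/
def np : Kp p →* Kp p →* Circle := radPairing (cz p) (cz_symm p)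

/-- the class of a vector -/
def cls (v : Fin 6 → ℤ) : Kp p := ((Multiplicative.ofAdd v : Multiplicative (Fin 6 → ℤ)) : Kp p)

lemma cls_surj (x : Kp p) : ∃ v, cls p v = x := by
  induction x using QuotientGroup.induction_on with
  | H v => exact ⟨v.toAdd, rfl⟩

lemma cls_add (v w : Fin 6 → ℤ) : cls p (v + w) = cls p v * cls p w := rfl

lemma cls_nsmul (m : ℕ) (v : Fin 6 → ℤ) : cls p (m • v) = cls p v ^ m := rfl

lemma cls_sub (v w : Fin 6 → ℤ) : cls p (v - w) = cls p v / cls p w := rfl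

lemma np_cls (v w : Fin 6 → ℤ) : np p (cls p v) (cls p w) = 1 ↔ (p : ℤ) ^ 8 ∣ bz p v w :=
  cz_eq_one_iff p v w

lemma cls_eq_one_iff (v : Fin 6 → ℤ) : cls p v = 1 ↔ ∀ w, (p : ℤ) ^ 8 ∣ bz p v w := by
  constructor
  · intro h w
    rw [← np_cls, h, map_one]; rfl
  · intro h
    apply radPairing_nondeg (cz p) (cz_symm p)
    intro y
    obtain ⟨w, rfl⟩ := cls_surj p y
    exact (np_cls p v w).2 (h w)

lemma cls_eq_iff (v w : Fin 6 → ℤ) (h : ∀ x, (p : ℤ) ^ 8 ∣ bz p (v - w) x) : cls p v = cls p w := by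
  rw [← cls_eq_one_iff, cls_sub, div_eq_one] at h
  exact h

lemma Kp_pow (x : Kp p) : x ^ (p ^ 8) = 1 := by
  obtain ⟨v, rfl⟩ := cls_surj p x
  rw [← cls_nsmul, cls_eq_one_iff]
  intro w
  have : ((p ^ 8 : ℕ) • v) = ((p : ℤ) ^ 8) • v := by
    rw [← natCast_zsmul]; push_cast; rfl
  rw [this, bz_smul_left]
  exact dvd_mul_right _ _

instance : Finite (Kp p) := by
  let f : (Fin 6 → Fin (p ^ 8)) → Kp p := fun u => cls p (fun i => ((u i : ℕ) : ℤ))
  apply Finite.of_surjective f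
  intro x
  obtain ⟨v, rfl⟩ := cls_surj p x
  have hpos : (0 : ℤ) < (p : ℤ) ^ 8 := by
    have := hp.out.pos
    positivity
  refine ⟨fun i => ⟨(v i % (p : ℤ) ^ 8).toNat, ?_⟩, ?_⟩
  · have h1 := Int.emod_lt_of_pos (v i) hpos
    have h2 := Int.emod_nonneg (v i) hpos.ne'
    zify
    rw [Int.toNat_of_nonneg h2]
    exact h1
  · apply cls_eq_iff
    intro w
    have : ((fun i => (((⟨(v i % (p : ℤ) ^ 8).toNat, by
        have h1 := Int.emod_lt_of_pos (v i) hpos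
        have h2 := Int.emod_nonneg (v i) hpos.ne'
        zify
        rw [Int.toNat_of_nonneg h2]
        exact h1⟩ : Fin (p ^ 8)) : ℕ) : ℤ)) - v : Fin 6 → ℤ) =
        ((p : ℤ) ^ 8) • (fun i => - (v i / (p : ℤ) ^ 8)) := by
      funext i
      have h2 := Int.emod_nonneg (v i) hpos.ne'
      simp only [Pi.sub_apply, Pi.smul_apply, smul_eq_mul]
      rw [Int.toNat_of_nonneg h2]
      have := Int.emod_add_mul_ediv (v i) ((p : ℤ) ^ 8)
      linarith
    rw [this, bz_smul_left]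
    exact dvd_mul_right _ _

end

end Pool.Agent.U852.Mum
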