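import Pool.Agent.U852.Mum.FinPart

/-! # The Lagrangian subgroup and its indecomposability -/

namespace Pool.Agent.U852.Mum

noncomputable section

variable (p : ℕ) [hp : Fact p.Prime]

/-- the Lagrangian subgroup -/
def Lp : Subgroup (Kp p) where
  carrier := {x | ∃ f : Fin 6 → ℤ, f 0 = 0 ∧ f 1 = 0 ∧ f 2 = 0 ∧ cls p f = x}
  one_mem' := ⟨0, rfl, rfl, rfl, rfl⟩
  mul_mem' := by
    rintro x y ⟨f, f0, f1, f2, rfl⟩ ⟨g, g0, g1, g2, rfl⟩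
    exact ⟨f + g, by simp [f0, g0], by simp [f1, g1], by simp [f2, g2], rfl⟩
  inv_mem' := by
    rintro x ⟨f, f0, f1, f2, rfl⟩
    exact ⟨-f, by simp [f0], by simp [f1], by simp [f2], rfl⟩

lemma mem_Lp (x : Kp p) : x ∈ Lp p ↔ ∃ f : Fin 6 → ℤ, f 0 = 0 ∧ f 1 = 0 ∧ f 2 = 0 ∧ cls p f = x := Iff.rfl

lemma np_Lp : ∀ x ∈ Lp p, ∀ y ∈ Lp p, np p x y = 1 := by
  rintro x ⟨f, f0, f1, f2, rfl⟩ y ⟨g, g0, g1, g2, rfl⟩
  rw [np_cls]
  have : bz p f g = 0 := by simp [bz, f0, f1, f2, g0, g1, g2]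
  rw [this]
  exact dvd_zero _

lemma single_zero {i : Fin 6} (j : Fin 6) (h : j ≠ i) : (Pi.single i (1 : ℤ) : Fin 6 → ℤ) j = 0 :=
  Pi.single_eq_of_ne h _

omit hp in
lemma bz_e3 (v : Fin 6 → ℤ) : bz p v (Pi.single 3 1) = - ((p : ℤ) ^ 2 * v 0) := by
  have h0 := single_zero (i := 3) 0 (by decide)
  have h1 := single_zero (i := 3) 1 (by decide)
  have h2 := single_zero (i := 3) 2 (by decide)
  have h4 := single_zero (i := 3) 4 (by decide)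
  have h5 := single_zero (i := 3) 5 (by decide)
  have h3 : (Pi.single 3 (1 : ℤ) : Fin 6 → ℤ) 3 = 1 := Pi.single_eq_same _ _
  simp only [bz, h0, h1, h2, h3, h4, h5]; ring

omit hp in
lemma bz_e4 (v : Fin 6 → ℤ) : bz p v (Pi.single 4 1) = - ((p : ℤ) ^ 4 * v 1) := by
  have h0 := single_zero (i := 4) 0 (by decide)
  have h1 := single_zero (i := 4) 1 (by decide)
  have h2 := single_zero (i := 4) 2 (by decide)
  have h3 := single_zero (i := 4) 3 (by decide)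
  have h5 := single_zero (i := 4) 5 (by decide)
  have h4 : (Pi.single 4 (1 : ℤ) : Fin 6 → ℤ) 4 = 1 := Pi.single_eq_same _ _
  simp only [bz, h0, h1, h2, h3, h4, h5]; ring

omit hp in
lemma bz_e5 (v : Fin 6 → ℤ) : bz p v (Pi.single 5 1) = - ((p : ℤ) ^ 6 * v 2) := by
  have h0 := single_zero (i := 5) 0 (by decide)
  have h1 := single_zero (i := 5) 1 (by decide)
  have h2 := single_zero (i := 5) 2 (by decide)
  have h3 := single_zero (i := 5) 3 (by decide)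
  have h4 := single_zero (i := 5) 4 (by decide)
  have h5 : (Pi.single 5 (1 : ℤ) : Fin 6 → ℤ) 5 = 1 := Pi.single_eq_same _ _
  simp only [bz, h0, h1, h2, h3, h4, h5]; ring

lemma dvd_of_mul {a b : ℕ} (v : ℤ) (h : (p : ℤ) ^ (a + b) ∣ - ((p : ℤ) ^ a * v)) : (p : ℤ) ^ b ∣ v := by
  rw [dvd_neg, pow_add] at h
  exact (mul_dvd_mul_iff_left (pow_ne_zero a (by exact_mod_cast hp.out.ne_zero))).1 h

lemma dvd_of_mul' {a b : ℕ} (v : ℤ) (h : (p : ℤ) ^ (a + b) ∣ ((p : ℤ) ^ a * v)) : (p : ℤ) ^ b ∣ v := by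
  rw [pow_add] at h
  exact (mul_dvd_mul_iff_left (pow_ne_zero a (by exact_mod_cast hp.out.ne_zero))).1 h

lemma dvd_of_bz {v : Fin 6 → ℤ} (h3 : (p : ℤ) ^ 8 ∣ bz p v (Pi.single 3 1))
    (h4 : (p : ℤ) ^ 8 ∣ bz p v (Pi.single 4 1)) (h5 : (p : ℤ) ^ 8 ∣ bz p v (Pi.single 5 1)) :
    (p : ℤ) ^ 6 ∣ v 0 ∧ (p : ℤ) ^ 4 ∣ v 1 ∧ (p : ℤ) ^ 2 ∣ v 2 := by
  rw [bz_e3] at h3
  rw [bz_e4] at h4
  rw [bz_e5] at h5
  exact ⟨dvd_of_mul p (a := 2) (b := 6) _ h3, dvd_of_mul p (a := 4) (b := 4) _ h4,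
    dvd_of_mul p (a := 6) (b := 2) _ h5⟩

lemma cls_mem_Lp_of {v : Fin 6 → ℤ} (h : (p : ℤ) ^ 6 ∣ v 0 ∧ (p : ℤ) ^ 4 ∣ v 1 ∧ (p : ℤ) ^ 2 ∣ v 2) :
    cls p v ∈ Lp p := by
  obtain ⟨⟨y0, h0⟩, ⟨y1, h1⟩, ⟨y2, h2⟩⟩ := h
  refine ⟨![0, 0, 0, v 3 - p ^ 2 * y1 - p * y2, v 4 + p ^ 2 * y0 - y2, v 5 + p * y0 + y1], rfl, rfl, rfl, ?_⟩
  symm
  apply cls_eq_iff
  intro w
  refine ⟨- (y0 * w 3 + y1 * w 4 + y2 * w 5), ?_⟩
  have e3 : (![0, 0, 0, v 3 - p ^ 2 * y1 - p * y2, v 4 + p ^ 2 * y0 - y2, v 5 + p * y0 + y1] : Fin 6 → ℤ) 3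
    = v 3 - p ^ 2 * y1 - p * y2 := rfl
  have e4 : (![0, 0, 0, v 3 - p ^ 2 * y1 - p * y2, v 4 + p ^ 2 * y0 - y2, v 5 + p * y0 + y1] : Fin 6 → ℤ) 4
    = v 4 + p ^ 2 * y0 - y2 := rfl
  have e5 : (![0, 0, 0, v 3 - p ^ 2 * y1 - p * y2, v 4 + p ^ 2 * y0 - y2, v 5 + p * y0 + y1] : Fin 6 → ℤ) 5
    = v 5 + p * y0 + y1 := rfl
  have e0 : (![0, 0, 0, v 3 - p ^ 2 * y1 - p * y2, v 4 + p ^ 2 * y0 - y2, v 5 + p * y0 + y1] : Fin 6 → ℤ) 0
    = 0 := rfl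
  have e1 : (![0, 0, 0, v 3 - p ^ 2 * y1 - p * y2, v 4 + p ^ 2 * y0 - y2, v 5 + p * y0 + y1] : Fin 6 → ℤ) 1
    = 0 := rfl
  have e2 : (![0, 0, 0, v 3 - p ^ 2 * y1 - p * y2, v 4 + p ^ 2 * y0 - y2, v 5 + p * y0 + y1] : Fin 6 → ℤ) 2
    = 0 := rfl
  simp only [bz, Pi.sub_apply, e0, e1, e2, e3, e4, e5, h0, h1, h2]
  ring

lemma cls_mem_Lp_iff {v : Fin 6 → ℤ} :
    cls p v ∈ Lp p ↔ ((p : ℤ) ^ 6 ∣ v 0 ∧ (p : ℤ) ^ 4 ∣ v 1 ∧ (p : ℤ) ^ 2 ∣ v 2) := by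
  refine ⟨?_, cls_mem_Lp_of p⟩
  rintro ⟨f, f0, f1, f2, hf⟩
  have h : cls p (v - f) = 1 := by rw [cls_sub, hf, div_self']
  rw [cls_eq_one_iff] at h
  have := dvd_of_bz p (h (Pi.single 3 1)) (h (Pi.single 4 1)) (h (Pi.single 5 1))
  simpa [f0, f1, f2] using this

lemma Lp_max (x : Kp p) (h : ∀ y ∈ Lp p, np p x y = 1) : x ∈ Lp p := by
  obtain ⟨v, rfl⟩ := cls_surj p x
  apply cls_mem_Lp_of
  apply dvd_of_bz
  · rw [← np_cls]
    apply h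
    exact ⟨_, single_zero (i := 3) 0 (by decide), single_zero (i := 3) 1 (by decide),
      single_zero (i := 3) 2 (by decide), rfl⟩
  · rw [← np_cls]
    apply h
    exact ⟨_, single_zero (i := 4) 0 (by decide), single_zero (i := 4) 1 (by decide),
      single_zero (i := 4) 2 (by decide), rfl⟩
  · rw [← np_cls]
    apply h
    exact ⟨_, single_zero (i := 5) 0 (by decide), single_zero (i := 5) 1 (by decide),
      single_zero (i := 5) 2 (by decide), rfl⟩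

lemma np_nondeg (x : Kp p) (h : ∀ y, np p x y = 1) : x = 1 := radPairing_nondeg (cz p) (cz_symm p) x h

lemma np_symm (x y : Kp p) : np p x y = (np p y x)⁻¹ := radPairing_symm (cz p) (cz_symm p) x y

/-- the pair `(K_p, L_p)` does not split into isotropic parts -/
theorem star (π π' : Kp p →* Kp p) (hsum : ∀ x, π x * π' x = x) (h1 : ∀ x y, np p (π x) (π y) = 1)
    (h2 : ∀ x y, np p (π' x) (π' y) = 1) (hL : ∀ x ∈ Lp p, π x ∈ Lp p) : False := by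
  have hpp : Prime (p : ℤ) := Nat.prime_iff_prime_int.1 hp.out
  have hp0 : (p : ℤ) ≠ 0 := hpp.ne_zero
  obtain ⟨u1, hu1⟩ := cls_surj p (π (cls p (Pi.single 0 1)))
  obtain ⟨u2, hu2⟩ := cls_surj p (π (cls p (Pi.single 1 1)))
  obtain ⟨u3, hu3⟩ := cls_surj p (π (cls p (Pi.single 2 1)))
  have hu' : ∀ (i : Fin 6) (u : Fin 6 → ℤ), cls p u = π (cls p (Pi.single i 1)) →
      cls p (Pi.single i 1 - u) = π' (cls p (Pi.single i 1)) := by
    intro i u hu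
    rw [cls_sub, hu, div_eq_iff_eq_mul]
    rw [mul_comm, hsum]
  -- the divisibilities
  have a2 : (p : ℤ) ^ 2 ∣ u2 0 := by
    have h : cls p ((p ^ 4 : ℕ) • u2) ∈ Lp p := by
      rw [cls_nsmul, hu2, ← map_pow, ← cls_nsmul]
      apply hL
      apply cls_mem_Lp_of
      refine ⟨?_, ?_, ?_⟩
      · simp
      · simp
      · simp
    rw [cls_mem_Lp_iff] at h
    have h3 := h.1
    simp only [Pi.smul_apply, nsmul_eq_mul, Nat.cast_pow] at h3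
    exact dvd_of_mul' p (a := 4) (b := 2) _ h3
  have a3 : (p : ℤ) ^ 4 ∣ u3 0 ∧ (p : ℤ) ^ 2 ∣ u3 1 := by
    have h : cls p ((p ^ 2 : ℕ) • u3) ∈ Lp p := by
      rw [cls_nsmul, hu3, ← map_pow, ← cls_nsmul]
      apply hL
      apply cls_mem_Lp_of
      refine ⟨?_, ?_, ?_⟩
      · simp
      · simp
      · simp
    rw [cls_mem_Lp_iff] at h
    have h3 := h.1
    have h4 := h.2.1
    simp only [Pi.smul_apply, nsmul_eq_mul, Nat.cast_pow] at h3 h4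
    exact ⟨dvd_of_mul' p (a := 2) (b := 4) _ h3, dvd_of_mul' p (a := 2) (b := 2) _ h4⟩
  have r := arith p hpp u1 u2 u3 a2 a3.1 a3.2
    (by rw [← np_cls, hu1, hu2]; exact h1 _ _) (by rw [← np_cls, hu1, hu3]; exact h1 _ _)
    (by rw [← np_cls, hu2, hu3]; exact h1 _ _)
  have r' := arith p hpp (Pi.single 0 1 - u1) (Pi.single 1 1 - u2) (Pi.single 2 1 - u3)
    (by
      rw [Pi.sub_apply, single_zero (i := 1) 0 (by decide), zero_sub, dvd_neg]; exact a2)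
    (by
      rw [Pi.sub_apply, single_zero (i := 2) 0 (by decide), zero_sub, dvd_neg]; exact a3.1)
    (by
      rw [Pi.sub_apply, single_zero (i := 2) 1 (by decide), zero_sub, dvd_neg]; exact a3.2)
    (by rw [← np_cls, hu' _ _ hu1, hu' _ _ hu2]; exact h2 _ _)
    (by rw [← np_cls, hu' _ _ hu1, hu' _ _ hu3]; exact h2 _ _)
    (by rw [← np_cls, hu' _ _ hu2, hu' _ _ hu3]; exact h2 _ _)
  rw [Pi.sub_apply, Pi.sub_apply, Pi.sub_apply, Pi.single_eq_same, Pi.single_eq_same, Pi.single_eq_same] at r'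
  obtain ⟨r12, r13, r23⟩ := r
  obtain ⟨s12, s13, s23⟩ := r'
  have key : ∀ a : ℤ, (p : ℤ) ∣ a → (p : ℤ) ∣ 1 - a → False := by
    intro a ha hb
    have := dvd_add ha hb
    rw [add_sub_cancel] at this
    exact hpp.not_dvd_one this
  rcases hpp.dvd_or_dvd r12 with h | h
  · rcases hpp.dvd_or_dvd s12 with h' | h'
    · exact key _ h h'
    · rcases hpp.dvd_or_dvd r23 with g | g
      · exact key _ g h'
      · rcases hpp.dvd_or_dvd s13 with g' | g'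
        · exact key _ h g'
        · exact key _ g g'
  · rcases hpp.dvd_or_dvd r13 with g | g
    · rcases hpp.dvd_or_dvd s12 with h' | h'
      · exact key _ g h'
      · exact key _ h h'
    · rcases hpp.dvd_or_dvd s23 with g' | g'
      · exact key _ h g'
      · exact key _ g g'

end

end Pool.Agent.U852.Mum
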