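import Pool.Agent.U852.Mum.Dual

/-! # No isotropic splitting of the restricted product -/

open Topology Filter
open scoped RestrictedProduct

namespace Pool.Agent.U852.Mum

noncomputable section

variable {ι : Type} {K : ι → Type} [∀ i, CommGroup (K i)] {L : ∀ i, Subgroup (K i)}

/-- the `i`-th component of an endomorphism -/
def compo [DecidableEq ι] (π : (Πʳ i, [K i, L i]) →* (Πʳ i, [K i, L i])) (i : ι) : K i →* K i where
  toFun k := π (RestrictedProduct.mulSingle L i k) i
  map_one' := by rw [RestrictedProduct.mulSingle_one, map_one, RestrictedProduct.one_apply]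
  map_mul' a b := by rw [RestrictedProduct.mulSingle_mul, map_mul, RestrictedProduct.mul_apply]

lemma compo_apply [DecidableEq ι] (π : (Πʳ i, [K i, L i]) →* (Πʳ i, [K i, L i])) (i : ι) (k : K i) :
    compo π i k = π (RestrictedProduct.mulSingle L i k) i := rfl

lemma compo_single [DecidableEq ι] (π : (Πʳ i, [K i, L i]) →* (Πʳ i, [K i, L i])) (e : ι → ℕ)
    (he : ∀ i (x : K i), x ^ e i = 1) (hcop : ∀ i j, i ≠ j → Nat.Coprime (e i) (e j)) (i : ι) (k : K i) :
    π (RestrictedProduct.mulSingle L i k) = RestrictedProduct.mulSingle L i (compo π i k) := by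
  ext j
  by_cases hji : j = i
  · subst hji
    rw [RestrictedProduct.mulSingle_eq_same]; rfl
  · rw [RestrictedProduct.mulSingle_eq_of_ne _ _ hji]
    have h1 : (π (RestrictedProduct.mulSingle L i k) j) ^ e i = 1 := by
      rw [← RestrictedProduct.pow_apply, ← map_pow, ← RestrictedProduct.mulSingle_pow, he,
        RestrictedProduct.mulSingle_one, map_one, RestrictedProduct.one_apply]
    have h2 := pow_gcd_eq_one.2 ⟨h1, he j (π (RestrictedProduct.mulSingle L i k) j)⟩
    have h3 : (e i).gcd (e j) = 1 := hcop i j (Ne.symm hji)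
    rw [h3, pow_one] at h2
    exact h2

lemma compo_isotropic [DecidableEq ι] (n : ∀ i, K i →* K i →* Circle)
    (hn : ∀ i, ∀ x ∈ L i, ∀ y ∈ L i, n i x y = 1)
    (π : (Πʳ i, [K i, L i]) →* (Πʳ i, [K i, L i])) (e : ι → ℕ)
    (he : ∀ i (x : K i), x ^ e i = 1) (hcop : ∀ i j, i ≠ j → Nat.Coprime (e i) (e j))
    (h : ∀ x y, pairing n hn (π x) (π y) = 1) (i : ι) (x y : K i) : n i (compo π i x) (compo π i y) = 1 := by
  have h1 := h (RestrictedProduct.mulSingle L i x) (RestrictedProduct.mulSingle L i y)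
  rw [compo_single π e he hcop i x, compo_single π e he hcop i y, pairing_single,
    RestrictedProduct.mulSingle_eq_same] at h1
  exact h1

variable [∀ i, TopologicalSpace (K i)] [∀ i, DiscreteTopology (K i)]

theorem no_split [Infinite ι] (n : ∀ i, K i →* K i →* Circle)
    (hn : ∀ i, ∀ x ∈ L i, ∀ y ∈ L i, n i x y = 1) (e : ι → ℕ)
    (he : ∀ i (x : K i), x ^ e i = 1) (hcop : ∀ i j, i ≠ j → Nat.Coprime (e i) (e j))
    (hstar : ∀ i, ∀ π π' : K i →* K i, (∀ x, π x * π' x = x) → (∀ x y, n i (π x) (π y) = 1) →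
      (∀ x y, n i (π' x) (π' y) = 1) → (∀ x ∈ L i, π x ∈ L i) → False)
    (π π' : (Πʳ i, [K i, L i]) →* (Πʳ i, [K i, L i])) (hπ : Continuous π) (hsum : ∀ x, π x * π' x = x)
    (h1 : ∀ x y, pairing n hn (π x) (π y) = 1) (h2 : ∀ x y, pairing n hn (π' x) (π' y) = 1) : False := by
  classical
  have hU : {x : Πʳ i, [K i, L i] | ∀ i, x i ∈ L i} ∈ 𝓝 (1 : Πʳ i, [K i, L i]) :=
    (RestrictedProduct.isOpen_forall_mem (fun i => isOpen_discrete (L i : Set (K i)))).mem_nhds
      (fun i => one_mem (L i))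
  have hO : π ⁻¹' {x : Πʳ i, [K i, L i] | ∀ i, x i ∈ L i} ∈ 𝓝 (1 : Πʳ i, [K i, L i]) := by
    apply hπ.continuousAt
    rw [map_one]
    exact hU
  obtain ⟨S, hS⟩ := exists_finset_of_nhds hO
  obtain ⟨i, hi⟩ := Infinite.exists_notMem_finset S
  refine hstar i (compo π i) (compo π' i) ?_ (compo_isotropic n hn π e he hcop h1 i)
    (compo_isotropic n hn π' e he hcop h2 i) ?_
  · intro x
    rw [compo_apply, compo_apply, ← RestrictedProduct.mul_apply, hsum, RestrictedProduct.mulSingle_eq_same]
  · intro x hx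
    rw [compo_apply]
    apply hS
    · intro j hj
      have : j ≠ i := by rintro rfl; exact hi hj
      exact RestrictedProduct.mulSingle_eq_of_ne _ _ this
    · intro j
      by_cases hji : j = i
      · subst hji
        rw [RestrictedProduct.mulSingle_eq_same]; exact hx
      · rw [RestrictedProduct.mulSingle_eq_of_ne _ _ hji]; exact one_mem _

end

end Pool.Agent.U852.Mum
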