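import Pool.Agent.U852.Mum.Split
import Pool.Agent.U852.Mum.NoSplit
import Pool.Agent.U852.Mum.FinStar

/-! # A Mumford group which is not a generalized Heisenberg group -/

open Topology Filter
open scoped RestrictedProduct

namespace Pool.Agent.U852.Mum

universe u v w

noncomputable section

/-- the odd primes -/
def Odds : Type := {p : ℕ // p.Prime ∧ p ≠ 2}

instance : Infinite Odds := by
  have h : ({p : ℕ | p.Prime ∧ p ≠ 2}).Infinite := by
    have h1 : ({p : ℕ | p.Prime} \ {2}).Infinite := Nat.infinite_setOfPred_prime.sdiff (Set.finite_singleton 2)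
    exact h1
  exact h.to_subtype

instance (i : Odds) : Fact (i.1.Prime) := ⟨i.2.1⟩

/-- the finite factors -/
def KK (i : Odds) : Type := Kp i.1

instance (i : Odds) : CommGroup (KK i) := inferInstanceAs (CommGroup (Kp i.1))
instance (i : Odds) : Finite (KK i) := inferInstanceAs (Finite (Kp i.1))
instance (i : Odds) : TopologicalSpace (KK i) := ⊥
instance (i : Odds) : DiscreteTopology (KK i) := ⟨rfl⟩

/-- the Lagrangian subgroups -/
def LL (i : Odds) : Subgroup (KK i) := Lp i.1

/-- the pairings -/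
def nn (i : Odds) : KK i →* KK i →* Circle := np i.1

lemma nn_LL : ∀ i, ∀ x ∈ LL i, ∀ y ∈ LL i, nn i x y = 1 := fun i => np_Lp i.1

/-- half of the pairings -/
def bb (i : Odds) : KK i →* KK i →* Circle := (nn i) ^ ((i.1 ^ 8 + 1) / 2)

lemma bb_apply (i : Odds) (x y : KK i) : bb i x y = (nn i x y) ^ ((i.1 ^ 8 + 1) / 2) := rfl

lemma bb_LL : ∀ i, ∀ x ∈ LL i, ∀ y ∈ LL i, bb i x y = 1 := by
  intro i x hx y hy
  rw [bb_apply, nn_LL i x hx y hy, one_pow]

lemma bb_nn (i : Odds) (x y : KK i) : nn i x y = bb i x y / bb i y x := by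
  rw [bb_apply, bb_apply]
  have h : nn i y x = (nn i x y)⁻¹ := np_symm i.1 y x
  rw [h, inv_pow, div_inv_eq_mul, ← pow_add]
  have hodd : Odd (i.1 ^ 8) := (i.2.1.odd_of_ne_two i.2.2).pow
  have h2 : (i.1 ^ 8 + 1) / 2 + (i.1 ^ 8 + 1) / 2 = i.1 ^ 8 + 1 := by
    obtain ⟨k, hk⟩ := hodd
    omega
  rw [h2, pow_succ]
  have h3 : (nn i x y) ^ (i.1 ^ 8) = 1 := by
    have : (nn i x) ^ (i.1 ^ 8) = 1 := by
      rw [← map_pow]
      have : x ^ (i.1 ^ 8) = 1 := Kp_pow i.1 x
      rw [this, map_one]
    rw [← MonoidHom.pow_apply, this]; rfl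
  rw [h3, one_mul]

/-- the underlying group -/
abbrev XX : Type := Πʳ i, [KK i, LL i]

/-- the cocycle -/
def beta : XX →* XX →* Circle := pairing bb bb_LL

lemma pairing_nn (x y : XX) : pairing nn nn_LL x y = beta x y / beta y x := by
  unfold beta
  rw [pairing_apply, pairing_apply, pairing_apply, ← finprod_div_distrib (fin_supp bb bb_LL x y)
    (fin_supp bb bb_LL y x)]
  exact finprod_congr fun i => bb_nn i _ _

/-- the self-duality -/
def MM : XX ≃ₜ* PontryaginDual XX :=
  selfDual nn nn_LL (fun i x h => np_nondeg i.1 x h) (fun i x h => Lp_max i.1 x h)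

lemma MM_apply (x y : XX) : MM x y = beta x y / beta y x := by
  rw [← pairing_nn]; rfl

theorem isMumford : IsMumford (Tw beta) := by
  have : ∀ i, CompactSpace (LL i) := fun i => by
    have : Finite (LL i) := inferInstance
    infer_instance
  exact mumford_tw beta (continuous_pairing bb bb_LL) MM MM_apply

theorem not_heis : ¬ IsGenHeisenberg.{u, v, w} (Tw beta) := by
  intro h
  have hinj : ∀ x, (∀ y, beta x y = beta y x) → x = 1 := by
    intro x hx
    have : MM x = MM 1 := by
      refine PontryaginDual.ext fun y => ?_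
      rw [MM_apply, MM_apply, hx y, div_self', map_one, map_one, MonoidHom.one_apply, div_self']
    exact MM.injective this
  obtain ⟨π, π', h1, h1', hsum, hi, hi'⟩ := split_of_heis beta hinj h
  refine no_split nn nn_LL (fun i => i.1 ^ 8) (fun i x => Kp_pow i.1 x) ?_ (fun i => star i.1) π π' h1 hsum
    (fun x y => ?_) (fun x y => ?_)
  · intro i j hij
    apply Nat.Coprime.pow
    rw [Nat.coprime_primes i.2.1 j.2.1]
    intro h
    exact hij (Subtype.ext h)
  · rw [pairing_nn, hi, div_self']
  · rw [pairing_nn, hi', div_self']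

theorem main : ∃ (G : Type) (_ : Group G) (_ : TopologicalSpace G),
    IsMumford G ∧ ¬ IsGenHeisenberg.{u, v, w} G :=
  ⟨Tw beta, inferInstance, inferInstance, isMumford, not_heis⟩

end

end Pool.Agent.U852.Mum
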