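import Mathlib

/-! # Pairings on restricted products of finite groups -/

open Topology Filter
open scoped RestrictedProduct

namespace Pool.Agent.U852.Mum

noncomputable section

variable {ι : Type} {K : ι → Type} [∀ i, CommGroup (K i)] [∀ i, TopologicalSpace (K i)]
  [∀ i, DiscreteTopology (K i)] {L : ∀ i, Subgroup (K i)}

omit [∀ i, TopologicalSpace (K i)] [∀ i, DiscreteTopology (K i)] in
lemma fin_supp (n : ∀ i, K i →* K i →* Circle) (hn : ∀ i, ∀ x ∈ L i, ∀ y ∈ L i, n i x y = 1)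
    (x y : Πʳ i, [K i, L i]) : (Function.mulSupport fun i => n i (x i) (y i)).Finite := by
  have : ∀ᶠ i in cofinite, n i (x i) (y i) = 1 := by
    filter_upwards [x.eventually, y.eventually] with i h1 h2
    exact hn i _ h1 _ h2
  exact this

omit [∀ i, TopologicalSpace (K i)] [∀ i, DiscreteTopology (K i)] in
/-- the product of the pairings -/
def pairing (n : ∀ i, K i →* K i →* Circle) (hn : ∀ i, ∀ x ∈ L i, ∀ y ∈ L i, n i x y = 1) :
    (Πʳ i, [K i, L i]) →* (Πʳ i, [K i, L i]) →* Circle :=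
  MonoidHom.mk' (fun x => MonoidHom.mk' (fun y => ∏ᶠ i, n i (x i) (y i)) (by
      intro y z
      rw [← finprod_mul_distrib (fin_supp n hn x y) (fin_supp n hn x z)]
      exact finprod_congr fun i => by simp)) (by
    intro x y
    ext z
    simp only [MonoidHom.mk'_apply, MonoidHom.mul_apply]
    rw [← finprod_mul_distrib (fin_supp n hn x z) (fin_supp n hn y z)]
    congr 1
    exact finprod_congr fun i => by rw [RestrictedProduct.mul_apply, map_mul]; rfl)

omit [∀ i, TopologicalSpace (K i)] [∀ i, DiscreteTopology (K i)] in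
lemma pairing_apply (n : ∀ i, K i →* K i →* Circle) (hn : ∀ i, ∀ x ∈ L i, ∀ y ∈ L i, n i x y = 1)
    (x y : Πʳ i, [K i, L i]) : pairing n hn x y = ∏ᶠ i, n i (x i) (y i) := rfl

lemma isOpen_W (S : Finset ι) (x : Πʳ i, [K i, L i]) :
    IsOpen {x' : Πʳ i, [K i, L i] | (∀ i ∈ S, x' i = x i) ∧ ∀ i, i ∉ S → x' i ∈ L i} := by
  apply IsOpen.inter
  · have : {x' : Πʳ i, [K i, L i] | ∀ i ∈ S, x' i = x i} =
        ⋂ i ∈ S, (fun x' : Πʳ i, [K i, L i] => x' i) ⁻¹' {x i} := by
      ext; simp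
    change IsOpen {x' : Πʳ i, [K i, L i] | ∀ i ∈ S, x' i = x i}
    rw [this]
    exact isOpen_biInter_finset fun i _ => (isOpen_discrete _).preimage (RestrictedProduct.continuous_eval i)
  · exact RestrictedProduct.isOpen_forall_imp_mem (fun i => isOpen_discrete _)

theorem continuous_pairing (n : ∀ i, K i →* K i →* Circle)
    (hn : ∀ i, ∀ x ∈ L i, ∀ y ∈ L i, n i x y = 1) :
    Continuous fun p : (Πʳ i, [K i, L i]) × (Πʳ i, [K i, L i]) => pairing n hn p.1 p.2 := by
  rw [continuous_iff_continuousAt]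
  rintro ⟨x, y⟩
  have hf : {i | ¬ (x i ∈ L i ∧ y i ∈ L i)}.Finite := by
    have : ∀ᶠ i in cofinite, x i ∈ L i ∧ y i ∈ L i := by
      filter_upwards [x.eventually, y.eventually] with i h1 h2 using ⟨h1, h2⟩
    exact this
  set S : Finset ι := hf.toFinset with hS
  have hS' : ∀ i, i ∉ S → x i ∈ L i ∧ y i ∈ L i := by
    intro i hi
    by_contra h
    exact hi (by simpa [hS] using h)
  have hx : {x' : Πʳ i, [K i, L i] | (∀ i ∈ S, x' i = x i) ∧ ∀ i, i ∉ S → x' i ∈ L i} ∈ 𝓝 x :=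
    (isOpen_W S x).mem_nhds ⟨fun _ _ => rfl, fun i hi => (hS' i hi).1⟩
  have hy : {y' : Πʳ i, [K i, L i] | (∀ i ∈ S, y' i = y i) ∧ ∀ i, i ∉ S → y' i ∈ L i} ∈ 𝓝 y :=
    (isOpen_W S y).mem_nhds ⟨fun _ _ => rfl, fun i hi => (hS' i hi).2⟩
  refine (continuousAt_const (y := pairing n hn x y)).congr ?_
  filter_upwards [prod_mem_nhds hx hy] with p hp
  rw [pairing_apply, pairing_apply]
  refine finprod_congr fun i => ?_
  by_cases hi : i ∈ S
  · rw [hp.1.1 i hi, hp.2.1 i hi]
  · rw [hn i _ (hS' i hi).1 _ (hS' i hi).2, hn i _ (hp.1.2 i hi) _ (hp.2.2 i hi)]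

lemma exists_finset_of_nhds {O : Set (Πʳ i, [K i, L i])} (hO : O ∈ 𝓝 (1 : Πʳ i, [K i, L i])) :
    ∃ S : Finset ι, ∀ x : Πʳ i, [K i, L i], (∀ i ∈ S, x i = 1) → (∀ i, x i ∈ L i) → x ∈ O := by
  have hc : Continuous (RestrictedProduct.structureMap K (fun i => (L i : Set (K i))) cofinite) :=
    RestrictedProduct.isEmbedding_structureMap.continuous
  have h1 : (RestrictedProduct.structureMap K (fun i => (L i : Set (K i))) cofinite) ⁻¹' O ∈
      𝓝 (fun i => (⟨1, one_mem (L i)⟩ : (L i : Set (K i)))) := hc.continuousAt hO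
  rw [nhds_pi, Filter.mem_pi'] at h1
  obtain ⟨I, t, ht, h⟩ := h1
  refine ⟨I, fun x hx hx' => ?_⟩
  have : (fun i => (⟨x i, hx' i⟩ : (L i : Set (K i)))) ∈ Set.pi (↑I) t := by
    intro i hi
    have h2 : (⟨x i, hx' i⟩ : (L i : Set (K i))) = ⟨1, one_mem (L i)⟩ := Subtype.ext (hx i hi)
    simp only
    rw [h2]
    exact mem_of_mem_nhds (ht i)
  exact h this

lemma char_trivial (χ : (Πʳ i, [K i, L i]) →* Circle) (hχ : Continuous χ) :
    ∃ S : Finset ι, ∀ x : Πʳ i, [K i, L i], (∀ i ∈ S, x i = 1) → (∀ i, x i ∈ L i) → χ x = 1 := by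
  have hO : χ ⁻¹' (Circle.centeredArc (Real.pi / 2)) ∈ 𝓝 (1 : Πʳ i, [K i, L i]) := by
    apply (Circle.isOpen_centeredArc (Real.pi / 2)).preimage hχ |>.mem_nhds
    rw [Set.mem_preimage, map_one, Circle.mem_centeredArc (by linarith [Real.pi_pos])]
    simp [Real.pi_pos]
  obtain ⟨S, hS⟩ := exists_finset_of_nhds hO
  refine ⟨S, fun x h1 h2 => ?_⟩
  refine Circle.eq_one_of_forall_pow_mem_centeredArc_pi_div_two fun m hm ↦ ?_
  have := hS (x ^ m) (fun i hi => by rw [RestrictedProduct.pow_apply, h1 i hi, one_pow])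
    (fun i => by rw [RestrictedProduct.pow_apply]; exact pow_mem (h2 i) m)
  simpa using this

lemma isCompact_C [∀ i, Finite (K i)] (S : Finset ι) :
    IsCompact {x : Πʳ i, [K i, L i] | ∀ i, i ∉ S → x i ∈ L i} := by
  have hT : cofinite ≤ 𝓟 ({i | i ∉ S} : Set ι) := by
    rw [le_principal_iff, mem_cofinite]
    refine S.finite_toSet.subset fun i hi => ?_
    simpa using hi
  have hcl : IsClosedEmbedding
      ((↑) : Πʳ i, [K i, (L i : Set (K i))]_[𝓟 ({i | i ∉ S} : Set ι)] → Π i, K i) := by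
    refine ⟨RestrictedProduct.isEmbedding_coe_of_principal, ?_⟩
    rw [RestrictedProduct.range_coe_principal]
    exact isClosed_set_pi fun i _ => isClosed_discrete _
  have : CompactSpace (Πʳ i, [K i, (L i : Set (K i))]_[𝓟 ({i | i ∉ S} : Set ι)]) := hcl.compactSpace
  have h2 := isCompact_range (RestrictedProduct.continuous_inclusion (R := K)
    (A := fun i => (L i : Set (K i))) hT)
  rw [RestrictedProduct.range_inclusion] at h2
  exact h2

end

end Pool.Agent.U852.Mum
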