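import Pool.Agent.U852.Mum.Abs

/-! # Consequences of being a generalized Heisenberg group -/

open Topology
open scoped commutatorElement

namespace Pool.Agent.U852.Mum

universe u v w

noncomputable section

namespace Heis

variable {E : Type u} {F : Type v} {A : Type w} [CommGroup E] [CommGroup F] [CommGroup A] {ω : E →* F →* A}

/-- `(a, b, c) ↦ (1, b, 1)` -/
def s1 : Heis ω →* Heis ω where
  toFun g := ⟨1, g.b, 1⟩
  map_one' := rfl
  map_mul' g h := by ext <;> simp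

/-- `(a, b, c) ↦ (1, 1, c)` -/
def s2 : Heis ω →* Heis ω where
  toFun g := ⟨1, 1, g.c⟩
  map_one' := rfl
  map_mul' g h := by ext <;> simp

lemma s1_apply (g : Heis ω) : s1 g = ⟨1, g.b, 1⟩ := rfl
lemma s2_apply (g : Heis ω) : s2 g = ⟨1, 1, g.c⟩ := rfl

lemma s1_comm (g h : Heis ω) : s1 g * s1 h = s1 h * s1 g := by
  ext <;> simp [s1_apply, mul_comm]

lemma s2_comm (g h : Heis ω) : s2 g * s2 h = s2 h * s2 g := by
  ext <;> simp [s2_apply, mul_comm]

lemma mem_center_of (a : A) : (⟨a, 1, 1⟩ : Heis ω) ∈ Subgroup.center (Heis ω) := by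
  rw [Subgroup.mem_center_iff]
  intro x
  ext <;> simp [mul_comm]

lemma center_left {g : Heis ω} (hg : g ∈ Subgroup.center (Heis ω)) (b : E) : ω b g.c = 1 := by
  rw [Subgroup.mem_center_iff] at hg
  have h := congrArg Heis.a (hg ⟨1, b, 1⟩)
  simp only [mul_a, one_mul, mul_one, map_one] at h
  simpa using h

lemma center_right {g : Heis ω} (hg : g ∈ Subgroup.center (Heis ω)) (c : F) : ω g.b c = 1 := by
  rw [Subgroup.mem_center_iff] at hg
  have h := congrArg Heis.a (hg ⟨1, 1, c⟩)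
  simp only [mul_a, one_mul, mul_one, map_one, MonoidHom.one_apply] at h
  simpa using h.symm

lemma s1_center {g : Heis ω} (hg : g ∈ Subgroup.center (Heis ω)) : s1 g ∈ Subgroup.center (Heis ω) := by
  rw [Subgroup.mem_center_iff]
  intro x
  ext
  · simp [s1_apply, center_right hg]
  · simp [s1_apply, mul_comm]
  · simp [s1_apply]

lemma s2_center {g : Heis ω} (hg : g ∈ Subgroup.center (Heis ω)) : s2 g ∈ Subgroup.center (Heis ω) := by
  rw [Subgroup.mem_center_iff]
  intro x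
  ext
  · simp [s2_apply, center_left hg]
  · simp [s2_apply]
  · simp [s2_apply, mul_comm]

lemma s1_s2 (g : Heis ω) : ∃ a : A, s1 g * s2 g = ⟨a, 1, 1⟩ * g := by
  refine ⟨ω g.b g.c * g.a⁻¹, ?_⟩
  ext <;> simp [s1_apply, s2_apply]

variable [TopologicalSpace E] [TopologicalSpace F] [TopologicalSpace A]

lemma continuous_tuple : Continuous (fun g : Heis ω => (g.a, g.b, g.c)) := continuous_induced_dom

lemma continuous_b : Continuous (fun g : Heis ω => g.b) :=
  (continuous_fst.comp continuous_snd).comp continuous_tuple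

lemma continuous_c : Continuous (fun g : Heis ω => g.c) :=
  (continuous_snd.comp continuous_snd).comp continuous_tuple

lemma continuous_s1 : Continuous (s1 : Heis ω →* Heis ω) :=
  continuous_induced_rng.2 (continuous_const.prodMk (continuous_b.prodMk continuous_const))

lemma continuous_s2 : Continuous (s2 : Heis ω →* Heis ω) :=
  continuous_induced_rng.2 (continuous_const.prodMk (continuous_const.prodMk continuous_c))

end Heis

namespace Tw

variable {X : Type} [CommGroup X] {β : X →* X →* Circle}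

/-- an endomorphism which preserves the centre descends -/
def descend (ρ : Tw β →* Tw β) (hρ : ∀ g, g.k = 1 → (ρ g).k = 1) : X →* X where
  toFun x := (ρ ⟨1, x⟩).k
  map_one' := hρ _ rfl
  map_mul' x y := by
    have h : (⟨1, x⟩ * ⟨1, y⟩ : Tw β) = ⟨β x y, 1⟩ * ⟨1, x * y⟩ := by
      ext1 <;> simp
    have h2 : ρ ⟨1, x⟩ * ρ ⟨1, y⟩ = ρ ⟨β x y, 1⟩ * ρ ⟨1, x * y⟩ := by rw [← map_mul, ← map_mul, h]
    have h3 := congrArg Tw.k h2
    rw [mul_k, mul_k, hρ ⟨β x y, 1⟩ rfl, one_mul] at h3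
    exact h3.symm

lemma descend_apply (ρ : Tw β →* Tw β) (hρ : ∀ g, g.k = 1 → (ρ g).k = 1) (x : X) :
    descend ρ hρ x = (ρ ⟨1, x⟩).k := rfl

lemma continuous_descend [TopologicalSpace X] (ρ : Tw β →* Tw β) (hρ : ∀ g, g.k = 1 → (ρ g).k = 1)
    (hc : Continuous ρ) : Continuous (descend ρ hρ) :=
  continuous_k.comp (hc.comp (continuous_mk continuous_const continuous_id))

end Tw

/-- the statement of the transport of an endomorphism -/
lemma exists_descend {X : Type} [CommGroup X] [TopologicalSpace X] {β : X →* X →* Circle}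
    (hinj : ∀ x, (∀ y, β x y = β y x) → x = 1)
    {E : Type u} {F : Type v} {A : Type w} [CommGroup E] [CommGroup F] [CommGroup A]
    [TopologicalSpace E] [TopologicalSpace F] [TopologicalSpace A] {ω : E →* F →* A}
    (Φ : Tw β ≃ₜ* Heis ω) (s : Heis ω →* Heis ω) (hs : Continuous s)
    (hz : ∀ g ∈ Subgroup.center (Heis ω), s g ∈ Subgroup.center (Heis ω))
    (hcomm : ∀ g h, s g * s h = s h * s g) :
    ∃ π : X →* X, Continuous π ∧ (∀ x, π x = (Φ.symm (s (Φ ⟨1, x⟩))).k) ∧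
      ∀ x y, β (π x) (π y) = β (π y) (π x) := by
  let ρ : Tw β →* Tw β := (Φ.symm.toMulEquiv.toMonoidHom.comp s).comp Φ.toMulEquiv.toMonoidHom
  have hρa : ∀ g, ρ g = Φ.symm (s (Φ g)) := fun _ => rfl
  have hcen : ∀ g : Tw β, g ∈ Subgroup.center (Tw β) → Φ g ∈ Subgroup.center (Heis ω) := by
    intro g hg
    rw [Subgroup.mem_center_iff] at hg ⊢
    intro y
    have := congrArg Φ (hg (Φ.symm y))
    simpa using this
  have hcen' : ∀ g : Heis ω, g ∈ Subgroup.center (Heis ω) → Φ.symm g ∈ Subgroup.center (Tw β) := by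
    intro g hg
    rw [Subgroup.mem_center_iff] at hg ⊢
    intro y
    have := congrArg Φ.symm (hg (Φ y))
    simpa using this
  have hρ : ∀ g, g.k = 1 → (ρ g).k = 1 := by
    intro g hg
    rw [hρa]
    exact Tw.k_eq_one hinj (hcen' _ (hz _ (hcen _ (Tw.mem_center_of hg))))
  have hρc : Continuous ρ := Φ.symm.continuous_toFun.comp (hs.comp Φ.continuous_toFun)
  refine ⟨Tw.descend ρ hρ, Tw.continuous_descend ρ hρ hρc, fun x => rfl, fun x y => ?_⟩
  have h1 : ρ ⟨1, x⟩ * ρ ⟨1, y⟩ = ρ ⟨1, y⟩ * ρ ⟨1, x⟩ := by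
    rw [hρa, hρa, ← map_mul, hcomm, map_mul]
  have h2 := congrArg Tw.t h1
  rw [Tw.mul_t, Tw.mul_t, mul_comm (ρ ⟨1, x⟩).t] at h2
  exact mul_left_cancel h2

theorem split_of_heis {X : Type} [CommGroup X] [TopologicalSpace X] (β : X →* X →* Circle)
    (hinj : ∀ x, (∀ y, β x y = β y x) → x = 1)
    (h : IsGenHeisenberg.{u, v, w} (Tw β)) :
    ∃ π π' : X →* X, Continuous π ∧ Continuous π' ∧ (∀ x, π x * π' x = x) ∧
      (∀ x y, β (π x) (π y) = β (π y) (π x)) ∧ (∀ x y, β (π' x) (π' y) = β (π' y) (π' x)) := by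
  obtain ⟨E, F, A, _, _, _, _, _, _, _, _, _, ω, hω, ⟨Φ⟩⟩ := h
  obtain ⟨π, h1, h2, h3⟩ := exists_descend hinj Φ Heis.s1 Heis.continuous_s1 (fun _ => Heis.s1_center)
    Heis.s1_comm
  obtain ⟨π', h1', h2', h3'⟩ := exists_descend hinj Φ Heis.s2 Heis.continuous_s2 (fun _ => Heis.s2_center)
    Heis.s2_comm
  refine ⟨π, π', h1, h1', fun x => ?_, h3, h3'⟩
  rw [h2, h2']
  obtain ⟨a, ha⟩ := Heis.s1_s2 (Φ ⟨1, x⟩)
  have h4 : Φ.symm (Heis.s1 (Φ ⟨1, x⟩)) * Φ.symm (Heis.s2 (Φ ⟨1, x⟩)) = Φ.symm ⟨a, 1, 1⟩ * ⟨1, x⟩ := by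
    rw [← map_mul, ha, map_mul]
    simp
  have h5 := congrArg Tw.k h4
  rw [Tw.mul_k, Tw.mul_k] at h5
  rw [h5]
  have h6 : Φ.symm (⟨a, 1, 1⟩ : Heis ω) ∈ Subgroup.center (Tw β) := by
    have := Heis.mem_center_of (ω := ω) a
    rw [Subgroup.mem_center_iff] at this ⊢
    intro y
    have := congrArg Φ.symm (this (Φ y))
    simpa using this
  rw [Tw.k_eq_one hinj h6, one_mul]

end

end Pool.Agent.U852.Mum
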