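import Pool.Agent.U852.Mum.Defs

/-! # The product of the circle and a group twisted by a bilinear cocycle -/

open Topology
open scoped commutatorElement

namespace Pool.Agent.U852.Mum

universe u v w

noncomputable section

/-- The product `𝕋 × X` twisted by a bilinear map `β : X × X → 𝕋`. -/
@[ext] structure Tw {X : Type u} [CommGroup X] (β : X →* X →* Circle) where
  t : Circle
  k : X

namespace Tw

variable {X : Type u} [CommGroup X] {β : X →* X →* Circle}

instance : Mul (Tw β) := ⟨fun g h => ⟨g.t * h.t * β g.k h.k, g.k * h.k⟩⟩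
instance : One (Tw β) := ⟨⟨1, 1⟩⟩
instance : Inv (Tw β) := ⟨fun g => ⟨g.t⁻¹ * β g.k g.k, g.k⁻¹⟩⟩

@[simp] lemma mul_t (g h : Tw β) : (g * h).t = g.t * h.t * β g.k h.k := rfl
@[simp] lemma mul_k (g h : Tw β) : (g * h).k = g.k * h.k := rfl
@[simp] lemma one_t : (1 : Tw β).t = 1 := rfl
@[simp] lemma one_k : (1 : Tw β).k = 1 := rfl
@[simp] lemma inv_t (g : Tw β) : (g⁻¹).t = g.t⁻¹ * β g.k g.k := rfl
@[simp] lemma inv_k (g : Tw β) : (g⁻¹).k = g.k⁻¹ := rfl

instance : Group (Tw β) :=
  Group.ofLeftAxioms
    (by
      intro x y z
      ext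
      · simp only [mul_t, mul_k, map_mul, MonoidHom.mul_apply]
        ac_rfl
      · simp [mul_assoc])
    (by intro x; ext <;> simp)
    (by intro x; ext <;> simp)

lemma comm_t (g h : Tw β) : (⁅g, h⁆ : Tw β).t = β g.k h.k / β h.k g.k := by
  have : ⁅g, h⁆ * (h * g) = g * h := by
    rw [commutatorElement_def]; group
  have h1 := congrArg Tw.t this
  have hk : (⁅g, h⁆ : Tw β).k = 1 := by
    rw [commutatorElement_def]; simp
  simp only [mul_t, hk, mul_k, map_one, MonoidHom.one_apply, mul_one] at h1
  rw [eq_div_iff_mul_eq']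
  have h2 : (⁅g, h⁆ : Tw β).t * β h.k g.k * (g.t * h.t) = β g.k h.k * (g.t * h.t) := by
    rw [mul_comm (β g.k h.k), ← h1]; ac_rfl
  exact mul_right_cancel h2

lemma comm_k (g h : Tw β) : (⁅g, h⁆ : Tw β).k = 1 := by
  rw [commutatorElement_def]; simp

variable [TopologicalSpace X]

/-- the twisted product carries the product topology -/
instance : TopologicalSpace (Tw β) :=
  TopologicalSpace.induced (fun g => (g.t, g.k)) inferInstance

/-- the underlying space is the product -/
def homeo : Tw β ≃ₜ Circle × X where
  toFun g := (g.t, g.k)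
  invFun p := ⟨p.1, p.2⟩
  left_inv _ := rfl
  right_inv _ := rfl
  continuous_toFun := continuous_induced_dom
  continuous_invFun := continuous_induced_rng.2 continuous_id

lemma continuous_t : Continuous (fun g : Tw β => g.t) := continuous_fst.comp homeo.continuous
lemma continuous_k : Continuous (fun g : Tw β => g.k) := continuous_snd.comp homeo.continuous

lemma continuous_mk {Y : Type*} [TopologicalSpace Y] {f : Y → Circle} {g : Y → X} (hf : Continuous f)
    (hg : Continuous g) : Continuous (fun y => (⟨f y, g y⟩ : Tw β)) :=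
  homeo.symm.continuous.comp (hf.prodMk hg)

lemma isTopologicalGroup [IsTopologicalGroup X] (hβ : Continuous fun p : X × X => β p.1 p.2) :
    IsTopologicalGroup (Tw β) where
  continuous_mul := by
    refine continuous_mk ?_ ?_
    · exact ((continuous_t.comp continuous_fst).mul (continuous_t.comp continuous_snd)).mul
        (hβ.comp ((continuous_k.comp continuous_fst).prodMk (continuous_k.comp continuous_snd)))
    · exact (continuous_k.comp continuous_fst).mul (continuous_k.comp continuous_snd)
  continuous_inv := by
    refine continuous_mk ?_ ?_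
    · exact continuous_t.inv.mul (hβ.comp (continuous_k.prodMk continuous_k))
    · exact continuous_k.inv

end Tw

end

end Pool.Agent.U852.Mum
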